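import Pool.Agent.Work.MP_43c1cf_co.MobMain

/-!
# MP_43c1cf_co, Q1: every edge-scribable polytope is Möbius unique

The definitions (`IsPolytope`, `Faces`, `SameType`, `EdgeScribed`, `cap`, `stereo`, `ball`,
`ballArrangement`, `IsMobius`, `EdgeScribable`, `MobiusUnique`) are in
`Pool/Agent/Work/MP_43c1cf_co/MobDefs.lean` and follow the section Setting and definitions of the
problem file word by word.
-/

set_option autoImplicit false

namespace Pool.Agent.Results.MP_43c1cf_co.FullAnswer

open Pool.Agent.Work.MP_43c1cf_co.Mob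

/-- **Möbius uniqueness of edge-scribable polytopes.**  For every `d ≥ 2` every edge-scribable
`(d+1)`-polytope `T` is Möbius unique: for any two edge-scribed realizations `P`, `Q` of its
combinatorial type a Möbius transformation of `ℝ^d ∪ {∞}` maps `B(P)` onto `B(Q)`.

The second part is the labelled form: for every isomorphism `φ` of the face lattices of two edge-scribed
`(d+1)`-polytopes `P`, `Q` there is one Möbius transformation that maps the ball of `v` onto the ball of
`w` whenever `φ` maps the vertex `v` to the vertex `w`, and it maps `B(P)` onto `B(Q)`. -/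
theorem result :
    (∀ d : ℕ, 2 ≤ d → ∀ T : Set (Fin (d + 1) → ℝ), IsPolytope T → EdgeScribable T →
      MobiusUnique T) ∧
    (∀ d : ℕ, 2 ≤ d → ∀ P Q : Set (Fin (d + 1) → ℝ), IsPolytope P → IsPolytope Q →
      EdgeScribed P → EdgeScribed Q → ∀ φ : Faces P ≃o Faces Q,
      ∃ μ : OnePoint (Fin d → ℝ) → OnePoint (Fin d → ℝ), IsMobius μ ∧
        (∀ (v w : Fin (d + 1) → ℝ) (hv : IsExposed ℝ P {v}),
          (φ ⟨{v}, hv⟩ : Set (Fin (d + 1) → ℝ)) = {w} → μ '' ball v = ball w) ∧
        (fun B => μ '' B) '' ballArrangement P = ballArrangement Q) := by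
  refine ⟨fun d hd T _ _ P Q hP sP eP hQ sQ eQ => ?_,
    fun d hd P Q hP hQ eP eQ φ => mobius_of_iso hd hP hQ eP eQ φ⟩
  obtain ⟨φP⟩ := sP
  obtain ⟨φQ⟩ := sQ
  obtain ⟨μ, hμ, -, h⟩ := mobius_of_iso hd hP hQ eP eQ (φP.symm.trans φQ)
  exact ⟨μ, hμ, h⟩

end Pool.Agent.Results.MP_43c1cf_co.FullAnswer
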